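import Pool.Agent.W851.BE.Stm

set_option autoImplicit false

open Polynomial Topology Filter
open Pool.Agent.W95.BK Pool.Agent.W851.BE

namespace Pool.Agent.W924.BE

universe u

section

variable {K : Type u} [NontriviallyNormedField K] [IsUltrametricDist K] [IsAlgClosed K]

lemma pick (hDVG : S_DVG.{u}) {r : ℝ} (hr : 0 < r) {P : ℝ → Prop} (h : ∀ᶠ t in 𝓝 r, P t) :
    ∃ t, r < t ∧ (∃ c : K, ‖c‖ = t) ∧ P t := by
  obtain ⟨δ, hδ, h1⟩ := Metric.eventually_nhds_iff.1 h
  obtain ⟨c, h2, h3⟩ := hDVG K r (r + δ) hr (by linarith)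
  refine ⟨‖c‖, h2, ⟨c, rfl⟩, h1 ?_⟩
  rw [Real.dist_eq, abs_lt]
  constructor <;> linarith

lemma comm_act (hI : S_ITER.{u}) (hF : S_FUNC.{u}) (R : RMap K) (n i : ℕ) (x : P1B K) :
    (R.iter n).act ((R.iter i).act x) = (R.iter i).act ((R.iter n).act x) := by
  rw [← (hF K).1, ← (hF K).1, ← (hI K R).2.1, ← (hI K R).2.1, Nat.add_comm]

lemma ld_comm (hI : S_ITER.{u}) (hC : S_CHAIN.{u}) (hL : S_LDEX.{u}) (R : RMap K)
    (n i : ℕ) (v : BA K) (hv : HK v) (hfix : (R.iter n).act (v : P1B K) = (v : P1B K)) :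
    localDeg (R.iter n) ((R.iter i).act (v : P1B K)) = localDeg (R.iter n) (v : P1B K) := by
  have h1 := hC K (R.iter n) (R.iter i) v hv
  have h2 := hC K (R.iter i) (R.iter n) v hv
  rw [← (hI K R).2.1] at h1 h2
  rw [Nat.add_comm i n, h1, hfix] at h2
  obtain ⟨m, hm, -, hm'⟩ := hL K (R.iter i) v hv
  rw [hm'] at h2
  exact Nat.eq_of_mul_eq_mul_right (by omega) (h2.trans (Nat.mul_comm _ _))

end

lemma one_le_q {r t : ℝ} (hr : 0 < r) (ht : r ≤ t) : 1 ≤ t / r := by
  rw [le_div_iff₀ hr]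
  linarith

theorem main : S_ZT.{u} → S_INJ.{u} → S_TA1.{u} → S_TB1.{u} → S_UP.{u} → S_DVG.{u} →
    S_ACTC.{u} → S_ACT.{u} → S_FUNC.{u} → S_ITER.{u} → S_CHAIN.{u} → S_LDEX.{u} → S_HIT.{u} := by
  intro hZT hINJ hTA1 hTB1 hUP hDVG hACTC hACT hF hI hC hL K _ _ _ R n a r hn hAB
  obtain ⟨hzt, hcont, hHK, -⟩ := hZT K
  have hr : 0 < r := by
    rcases hAB with h | h
    · exact h.1
    · exact h.1
  have hfix : (R.iter n).act (zt a r) = zt a r := by
    rcases hAB with h | h
    · exact h.2.2.1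
    · exact h.2.2.1
  have hxg : zt a r = ((gauss a r hr : BA K) : P1B K) := zt_pos a hr
  -- some index is bad
  have hbad : ∃ j, j < n ∧ ∃ (b : K) (s : ℝ), R.Q.eval b = 0 ∧ 0 < s ∧
      (R.iter j).act (zt a r) = zt b s := by
    by_contra hno
    obtain ⟨c, κ, ε, hκ, hε, hup⟩ := hUP K R n a r hr (fun j hj b s hb hs he =>
      hno ⟨j, hj, b, s, hb, hs, he⟩)
    have h1 := hup r le_rfl (by linarith)
    rw [div_self hr.ne', one_pow, mul_one, hfix] at h1
    obtain ⟨hrκ, hac⟩ := (hzt a c r κ hr hκ).1 h1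
    have h2 : ∀ t, r ≤ t → t < r + ε → (R.iter n).act (zt a t) =
        zt a (r * (t / r) ^ localDeg (R.iter n) (zt a r)) := by
      intro t ht ht'
      have h3 : 1 ≤ (t / r) ^ localDeg (R.iter n) (zt a r) := one_le_pow₀ (one_le_q hr ht)
      rw [hup t ht ht', ← hrκ]
      rw [hzt c a _ _ (by positivity) (by positivity)]
      refine ⟨rfl, ?_⟩
      rw [norm_sub_rev]
      nlinarith
    rcases hAB with h | h
    · obtain ⟨r', hr', h3⟩ := hTA1 K (R.iter n) a r h
      obtain ⟨t, ht, htv, ht1, ht2⟩ := pick (K := K) hDVG hr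
        ((eventually_lt_nhds (show r < r + ε by linarith)).and (eventually_lt_nhds hr'))
      have h4 := (h3 t ht ht2 htv).1
      have hq : 1 < t / r := by
        rw [lt_div_iff₀ hr]
        linarith
      rw [h2 t ht.le ht1, hzt a a _ _ (by positivity) (by linarith)] at h4
      have h5 : (t / r) ^ 2 ≤ (t / r) ^ localDeg (R.iter n) (zt a r) :=
        pow_le_pow_right₀ hq.le h.2.2.2.1
      have h6 : t = r * (t / r) := by field_simp
      have h7 := h4.1
      have h8 : t / r < (t / r) ^ 2 := by nlinarith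
      have h9 : r * (t / r) < r * (t / r) ^ localDeg (R.iter n) (zt a r) :=
        mul_lt_mul_of_pos_left (lt_of_lt_of_le h8 h5) hr
      rw [h7, ← h6] at h9
      exact lt_irrefl _ h9
    · obtain ⟨r', hr', h3⟩ := hTB1 K (R.iter n) a r h
      obtain ⟨t, ht, htv, ht1, ht2⟩ := pick (K := K) hDVG hr
        ((eventually_lt_nhds (show r < r + ε by linarith)).and (eventually_lt_nhds hr'))
      apply h3 t ht ht2 htv
      rw [h2 t ht.le ht1, h.2.2.2.1, pow_one, mul_div_cancel₀ _ hr.ne']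
  -- the least bad index
  obtain ⟨i, ⟨hin, b, s, hb, hs, hgi⟩, hmin⟩ : ∃ i, (i < n ∧ ∃ (b : K) (s : ℝ),
      R.Q.eval b = 0 ∧ 0 < s ∧ (R.iter i).act (zt a r) = zt b s) ∧
      ∀ j < i, ¬ (j < n ∧ ∃ (b : K) (s : ℝ), R.Q.eval b = 0 ∧ 0 < s ∧
        (R.iter j).act (zt a r) = zt b s) := by
    classical
    exact ⟨Nat.find hbad, Nat.find_spec hbad, fun j hj => Nat.find_min hbad hj⟩
  obtain ⟨c, κ, ε, hκ, hε, hup⟩ := hUP K R i a r hr (fun j hj b' s' hb' hs' he =>
    hmin j hj ⟨by omega, b', s', hb', hs', he⟩)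
  have h1 := hup r le_rfl (by linarith)
  rw [div_self hr.ne', one_pow, mul_one, hgi] at h1
  obtain ⟨hsκ, hbc⟩ := (hzt b c s κ hs hκ).1 h1
  have h2 : ∀ t, r ≤ t → t < r + ε → (R.iter i).act (zt a t) =
      zt b (s * (t / r) ^ localDeg (R.iter i) (zt a r)) := by
    intro t ht ht'
    have h3 : 1 ≤ (t / r) ^ localDeg (R.iter i) (zt a r) := one_le_pow₀ (one_le_q hr ht)
    rw [hup t ht ht', ← hsκ]
    rw [hzt c b _ _ (by positivity) (by positivity)]
    refine ⟨rfl, ?_⟩
    rw [norm_sub_rev]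
    nlinarith
  have hmi : 1 ≤ localDeg (R.iter i) (zt a r) := by
    obtain ⟨m, hm, -, hm'⟩ := hL K (R.iter i) (gauss a r hr) (hHK a r hr)
    rw [hxg, hm']
    exact hm
  refine ⟨i, hin, b, s, hb, hs, hgi, ?_⟩
  have hfb : (R.iter n).act (zt b s) = zt b s := by
    rw [← hgi, comm_act hI hF, hfix]
  have hld : localDeg (R.iter n) (zt b s) = localDeg (R.iter n) (zt a r) := by
    rw [← hgi, hxg]
    exact ld_comm hI hC hL R n i _ (hHK a r hr) (by rw [← hxg]; exact hfix)
  -- the radius of the image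
  have hev : ∀ ε' > 0, ∀ᶠ t in 𝓝 r, s * (t / r) ^ localDeg (R.iter i) (zt a r) < s + ε' := by
    intro ε' hε'
    have hc : Continuous fun t : ℝ => s * (t / r) ^ localDeg (R.iter i) (zt a r) := by fun_prop
    have h3 : s * (r / r) ^ localDeg (R.iter i) (zt a r) < s + ε' := by
      rw [div_self hr.ne', one_pow]
      linarith
    exact hc.continuousAt.eventually (eventually_lt_nhds h3)
  have hgt : ∀ t, r < t → s < s * (t / r) ^ localDeg (R.iter i) (zt a r) := by
    intro t ht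
    have hq : 1 < t / r := by
      rw [lt_div_iff₀ hr]
      linarith
    have h3 : 1 < (t / r) ^ localDeg (R.iter i) (zt a r) := one_lt_pow₀ hq (by omega)
    nlinarith
  rcases hAB with h | h
  · left
    refine ⟨hfb, by rw [hld]; exact h.2.2.2.1, ?_⟩
    intro ε' hε'
    obtain ⟨r', hr', h3⟩ := hTA1 K (R.iter n) a r h
    obtain ⟨t, ht, htv, ht1, ht2, ht3⟩ := pick (K := K) hDVG hr
      ((eventually_lt_nhds (show r < r + ε by linarith)).and ((eventually_lt_nhds hr').and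
        (hev ε' hε')))
    obtain ⟨h4, h5⟩ := h3 t ht ht2 htv
    have ht0 : 0 < t := by linarith
    refine ⟨_, hgt t ht, ht3, ?_, ?_⟩
    · rw [← h2 t ht.le ht1, comm_act hI hF, h4]
    · rw [← h2 t ht.le ht1]
      have hxt : zt a t = ((gauss a t ht0 : BA K) : P1B K) := zt_pos a ht0
      rw [hxt] at h4 h5 ⊢
      rw [ld_comm hI hC hL R n i _ (hHK a t ht0) h4, h5]
  · right
    refine ⟨hfb, by rw [hld]; exact h.2.2.2.1, ?_⟩
    intro ε' hε'
    by_contra hno
    push Not at hno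
    obtain ⟨r', hr', h3⟩ := hTB1 K (R.iter n) a r h
    -- the local degree of the iterate is one
    have hl1 : localDeg (R.iter i) ((gauss a r hr : BA K) : P1B K) = 1 := by
      have h4 := hC K (R.iter (n - i)) (R.iter i) (gauss a r hr) (hHK a r hr)
      rw [← (hI K R).2.1, Nat.sub_add_cancel hin.le, ← hxg, h.2.2.2.1] at h4
      rw [← hxg]
      exact Nat.eq_one_of_mul_eq_one_left h4.symm
    obtain ⟨U, hU, hinj⟩ := hINJ K (R.iter i) (gauss a r hr) (hHK a r hr) hl1
    have hca : ContinuousAt (fun t => zt a t) r := (hcont a).continuousAt (Ioi_mem_nhds hr)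
    rw [← hxg] at hU
    have ev1 : ∀ᶠ t in 𝓝 r, zt a t ∈ U := hca.eventually hU
    have ev2 : ∀ᶠ t in 𝓝 r, (R.iter n).act (zt a t) ∈ U := by
      have hcc : ContinuousAt (fun t => (R.iter n).act (zt a t)) r :=
        ContinuousAt.comp (f := fun t => zt a t) (g := (R.iter n).act)
          (hACTC K (R.iter n)).continuousAt hca
      have hU' : U ∈ 𝓝 ((R.iter n).act (zt a r)) := by rw [hfix]; exact hU
      exact hcc.eventually hU'
    obtain ⟨t, ht, htv, ht1, ht2, ht3, ht4, ht5⟩ := pick (K := K) hDVG hr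
      ((eventually_lt_nhds (show r < r + ε by linarith)).and ((eventually_lt_nhds hr').and
        ((hev ε' hε').and (ev1.and ev2))))
    apply h3 t ht ht2 htv
    have ht0 : 0 < t := by linarith
    have hxt : zt a t = ((gauss a t ht0 : BA K) : P1B K) := zt_pos a ht0
    obtain ⟨y, hy, hy', -⟩ := (hACT K (R.iter n)).1 (gauss a t ht0) (hHK a t ht0)
    rw [← hxt] at hy'
    rw [hy'] at ht5
    rw [hxt] at ht4
    have h6 : (R.iter i).act (y : P1B K) = (R.iter i).act ((gauss a t ht0 : BA K) : P1B K) := by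
      rw [← hy', ← hxt, comm_act hI hF, h2 t ht.le ht1]
      exact hno _ (hgt t ht) ht3
    rw [hy', hxt, hinj y (gauss a t ht0) hy (hHK a t ht0) ht5 ht4 h6]

end Pool.Agent.W924.BE
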